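import Pool.Agent.H53.CE.Grow

/-!
# Centralizers in `Aut(F_n)`: retraction from `Out(F_{2n+3})` and growth

For `σ ∈ Aut(F_n)` let `Ψ σ` be the automorphism of the free group on
`x_1, …, x_n, y_0, …, y_{n+2}` with `x_i ↦ y_0 σ(x_i) y_0⁻¹` and `y_j ↦ y_j`.  For every
non-empty set `S` of automorphisms of `F_n` the centralizer of `S` in `Aut(F_n)` is a retract of the
centralizer, in the OUTER automorphism group of rank `2n+3`, of the classes of the `Ψ σ`, `σ ∈ S`.
Hence both questions of the problem follow from the same questions for outer automorphism groups.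
The map `Ψ` keeps the growth: if `σ` grows at most like `k^d`, `d ≥ 1`, then so does `Ψ σ`.  For
`d = 1` the centralizers in `Out(F_m)` of elements of at most linear growth are finitely presented by
published theorems (N. Andrew and A. Martino 2022 for roots of Dehn twists; J. McCool 1988, S. Krstić
1992, S. Krstić and K. Vogtmann 1993 for elements of finite order), so the answer to Q1 is yes for
every automorphism of at most linear growth.

The only step which is not formal is `Pool.Agent.H53.CE.key`: if `α ∘ Ψ ∘ α⁻¹ = Inn(c) ∘ Ψ` then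
`c = g Ψ(g)⁻¹` for some `g`.  It is proved by the window argument of `Pool.Agent.H53.CE.master`:
choose a weight `χ : F → ℚ` which is zero on the `x_i`, on `y_0` and on `c`, but not on some
`b = α(y_j)` (this is possible by counting dimensions), spread the free group over levels by `χ`,
apply a high power of `b c = c Ψ(b)` and kill all letters outside a window of levels.
-/

namespace Pool.Agent.Results.MP_8e8e02_al.LinearGrowth

open FreeGroup Pool.Agent.H53.CE

/-- `A` is a retract of `B`: there are homomorphisms `i : A → B` and `r : B → A` with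
`r ∘ i = id`. -/
def IsRetract (A B : Type) [Group A] [Group B] : Prop :=
  ∃ (i : A →* B) (r : B →* A), ∀ a, r (i a) = a

/-- The free group of rank `2n+3`, on the letters `x_i = inl i` (`i < n`) and `y_j = inr j`
(`j < n+3`). -/
abbrev F2 (n : ℕ) := FreeGroup (Fin n ⊕ Fin (n + 3))

/-- The inclusion `F_n → F_{2n+3}`, `x_i ↦ x_i`. -/
def inc (n : ℕ) : FreeGroup (Fin n) →* F2 n := FreeGroup.map Sum.inl

/-- The letter `y_j` of `F_{2n+3}`. -/
def ylet (n : ℕ) (j : Fin (n + 3)) : F2 n := of (Sum.inr j)

/-- `Ψ` is the marking map: `Ψ σ` sends `v ∈ F_n` to `y_0 σ(v) y_0⁻¹` and fixes every `y_j`. -/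
def IsMarking (n : ℕ) (Ψ : MulAut (FreeGroup (Fin n)) → MulAut (F2 n)) : Prop :=
  (∀ σ v, Ψ σ (inc n v) = ylet n 0 * inc n (σ v) * (ylet n 0)⁻¹) ∧
  (∀ σ j, Ψ σ (ylet n j) = ylet n j)

/-- The set of the classes in `Out` of the automorphisms `Ψ σ`, `σ ∈ S`. -/
def classes (n : ℕ) (Ψ : MulAut (FreeGroup (Fin n)) → MulAut (F2 n))
    (S : Set (MulAut (FreeGroup (Fin n)))) : Set (Out (F2 n)) :=
  (fun σ => (QuotientGroup.mk (Ψ σ) : Out (F2 n))) '' S

/-- The centralizer of the set `S` in the group `H` is finitely presented. -/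
def CentFP {H : Type} [Group H] (S : Set H) : Prop :=
  Group.IsFinitelyPresented (Subgroup.centralizer S)

/-- The centralizer of every single element of `Out(F_m)` is finitely presented, for all `m`. -/
def OutSingle : Prop := ∀ (m : ℕ) (φ : Out (FreeGroup (Fin m))), CentFP {φ}

/-- The centralizer of every single element of `Aut(F_n)` is finitely presented, for all `n`;
this is the positive answer to question Q1. -/
def AutSingle : Prop := ∀ (n : ℕ) (σ : MulAut (FreeGroup (Fin n))), CentFP {σ}

/-- The centralizer of every finite subset of `Out(F_m)` is finitely presented, for all `m`. -/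
def OutFinite : Prop := ∀ (m : ℕ) (T : Set (Out (FreeGroup (Fin m)))), T.Finite → CentFP T

/-- The centralizer of every finite subset of `Aut(F_n)` is finitely presented, for all `n`;
this is the positive answer to question Q2. -/
def AutFinite : Prop := ∀ (n : ℕ) (S : Set (MulAut (FreeGroup (Fin n)))), S.Finite → CentFP S

/-- The outer automorphism represented by `Φ` grows at most like `k^d`: the length of every
conjugacy class does (`conjLen` is the least length of a conjugate). -/
def OutGrowth (d : ℕ) {m : ℕ} (Φ : MulAut (FreeGroup (Fin m))) : Prop :=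
  ∀ w, ∃ C : ℕ, ∀ k : ℕ, conjLen ((Φ ^ k) w) ≤ C * (k + 1) ^ d

/-- The automorphism `σ` grows at most like `k^d`: the length of the reduced word of `σ^k(w)` does,
for every `w`. -/
def AutGrowth (d : ℕ) {n : ℕ} (σ : MulAut (FreeGroup (Fin n))) : Prop :=
  ∀ w, ∃ C : ℕ, ∀ k : ℕ, ((σ ^ k) w).norm ≤ C * (k + 1) ^ d

/-- The centralizer in `Out(F_m)` of every element of growth at most `k^d` is finitely presented,
for all `m`. For `d = 1` this is a published theorem. -/
def OutPoly (d : ℕ) : Prop := ∀ (m : ℕ) (Φ : MulAut (FreeGroup (Fin m))), OutGrowth d Φ →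
  CentFP {(QuotientGroup.mk Φ : Out (FreeGroup (Fin m)))}

/-- The centralizer in `Aut(F_n)` of every element of growth at most `k^d` is finitely presented,
for all `n`. -/
def AutPoly (d : ℕ) : Prop := ∀ (n : ℕ) (σ : MulAut (FreeGroup (Fin n))), AutGrowth d σ →
  CentFP {σ}

/-- The class of a single automorphism. -/
theorem image_singleton_class {X Y : Type} (z : Y) (σ : MulAut (FreeGroup X)) :
    SO z {σ} = {(QuotientGroup.mk (mark z σ) : Out (FreeGroup (X ⊕ Y)))} := by
  simp [SO]

/-- Growth of the marked automorphism, in the standard letters. -/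
theorem outGrowth_mark {d : ℕ} (hd : 1 ≤ d) {n : ℕ} (σ : MulAut (FreeGroup (Fin n)))
    (h : AutGrowth d σ) :
    OutGrowth d (MulAut.congr (FreeGroup.freeGroupCongr finSumFinEquiv)
      (mark (0 : Fin (n + 3)) σ)) := by
  intro w
  have hlin : ∀ k : ℕ, k + 1 ≤ (k + 1) ^ d := fun k => by
    calc k + 1 = (k + 1) ^ 1 := (pow_one _).symm
      _ ≤ (k + 1) ^ d := Nat.pow_le_pow_right (by omega) hd
  obtain ⟨C, hC⟩ := mark_growth (0 : Fin (n + 3)) σ (fun k => (k + 1) ^ d)
    (fun k => (Nat.le_succ k).trans (hlin k)) (fun i => h (of i))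
    (fun k => (Nat.succ_le_succ (Nat.zero_le k)).trans (hlin k))
    ((FreeGroup.freeGroupCongr finSumFinEquiv).symm w)
  refine ⟨C, fun k => (conjLen_le _).trans ?_⟩
  rw [congr_pow]
  exact (norm_map_le _ _).trans (hC k)

/-- Centralizers in `Aut(F_n)` are retracts of centralizers in `Out(F_{2n+3})`; both questions
follow from the same questions for `Out`, and the same holds for the elements of growth at most
`k^d`, `d ≥ 1`. The hypothesis `OutPoly 1` is a published theorem, so `AutPoly 1` holds. -/
theorem result :
    (∀ n : ℕ, ∃ Ψ : MulAut (FreeGroup (Fin n)) → MulAut (F2 n), IsMarking n Ψ ∧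
      ∀ S : Set (MulAut (FreeGroup (Fin n))), S.Nonempty →
        IsRetract (Subgroup.centralizer S) (Subgroup.centralizer (classes n Ψ S))) ∧
    (OutSingle → AutSingle) ∧ (OutFinite → AutFinite) ∧
    ∀ d : ℕ, 1 ≤ d → OutPoly d → AutPoly d := by
  have hcard : ∀ n : ℕ, Fintype.card (Fin n) + 2 < Fintype.card (Fin (n + 3)) := by
    intro n
    simp
  -- the change of basis set
  let E : ∀ n : ℕ, Out (FreeGroup (Fin n ⊕ Fin (n + 3))) ≃* Out (FreeGroup (Fin (n + (n + 3)))) :=
    fun n => outCongr (FreeGroup.freeGroupCongr finSumFinEquiv)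
  have fin : ∀ (n : ℕ) (S : Set (MulAut (FreeGroup (Fin n)))), S.Nonempty →
      Group.IsFinitelyPresented (Subgroup.centralizer (E n '' (SO (0 : Fin (n + 3)) S))) →
      Group.IsFinitelyPresented (Subgroup.centralizer S) := by
    intro n S hS h
    obtain ⟨i, r, hr⟩ := retract (hcard n) (0 : Fin (n + 3)) S hS
    exact fp_retract i r hr (fp_centralizer_equiv (E n) _ h)
  refine ⟨fun n => ⟨mark 0, ⟨?_, ?_⟩, ?_⟩, ?_, ?_, ?_⟩
  · intro σ v
    exact mk_iX (of (Sum.inr 0)) σ.toMonoidHom v
  · intro σ y
    exact mk_inr (of (Sum.inr 0)) σ.toMonoidHom y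
  · intro S hS
    exact retract (hcard n) (0 : Fin (n + 3)) S hS
  · intro H n σ
    apply fin n {σ} ⟨σ, rfl⟩
    rw [image_singleton_class, Set.image_singleton]
    exact H _ _
  · intro H n S hS
    rcases S.eq_empty_or_nonempty with rfl | hne
    · have h1 : Subgroup.centralizer (∅ : Set (MulAut (FreeGroup (Fin n))))
          = Subgroup.centralizer {1} := by
        ext g
        simp [Subgroup.mem_centralizer_iff]
      unfold CentFP
      rw [h1]
      apply fin n {1} ⟨1, rfl⟩
      rw [image_singleton_class, Set.image_singleton]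
      exact H _ _ (Set.finite_singleton _)
    · exact fin n S hne (H _ _ ((hS.image _).image _))
  · intro d hd H n σ hσ
    apply fin n {σ} ⟨σ, rfl⟩
    rw [image_singleton_class, Set.image_singleton]
    exact H _ _ (outGrowth_mark hd σ hσ)

end Pool.Agent.Results.MP_8e8e02_al.LinearGrowth
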