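import Pool.Agent.H53.CE.Two3

/-!
# Centralizers in `Aut(F_n)`: reduction of finite sets to two automorphisms of finite order

Let `σ_0, …, σ_k` be automorphisms of `F_n`.  Take `6(k + 1)` blocks of `n` letters, indexed by
`(m, b, r)`, `0 ≤ m ≤ k`, `b` a bit, `r` mod `3`, and one more letter `z`.  Let `h` send block
`(m, b, r)` to block `(m, b, r + 1)` and `z` to `z⁻¹`; so `h⁶ = 1`.  Let `A` be the involution which
sends `z` to `z⁻¹`, is the identity on block `(0, 0, 0)`, and exchanges, up to conjugation by `z`,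
the blocks `(m, 0, 1)` and `(m, 1, 0)`, the blocks `(m, 1, 1)` and `(m + 1, 0, 0)`, and, with `σ_m`
one way and `σ_m⁻¹` back, the blocks `(m, 0, 2)` and `(m, 1, 2)`; block `(k, 1, 1)` goes to itself.
Then the centralizer of `σ_0, …, σ_k` in `Aut(F_n)` is a retract of the centralizer of `h, A` in the
automorphism group of the free group of rank `6(k + 1)n + 1`.  Hence question Q2 for all finite sets
is equivalent to question Q2 for pairs of automorphisms of orders dividing `6` and `2`.

Proof: let `T = A h³`. It fixes `z` and block `(0, 0, 0)`, and on every other block it is a map to a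
block followed by conjugation by `z`.  The fixed points of `T` lie in the subgroup generated by
block `(0, 0, 0)` and `z` (this is `Pool.Agent.H53.CE.fix_eq_kap`).  So every `β` which commutes
with `h` and `A` maps this subgroup into itself; going along the chain of blocks, the same holds for
every block modulo `z`; the maps induced on the blocks are all equal, and they commute with every
`σ_m`.
-/

namespace Pool.Agent.Results.MP_8e8e02_al.TorsionPairs

open FreeGroup Pool.Agent.H53.CE

/-- `G` is a retract of `H`: there are homomorphisms `i : G → H` and `r : H → G` with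
`r ∘ i = id`. -/
def IsRetract (G H : Type) [Group G] [Group H] : Prop :=
  ∃ (i : G →* H) (r : H →* G), ∀ a, r (i a) = a

/-- The free group of rank `6(k + 1)n + 1`, on the letters `some (j, i)` (the letter `i < n` of
block `j = (m, b, r)`, `0 ≤ m ≤ k`, `b` a bit, `r` mod `3`) and `none` (the letter `z`). -/
abbrev FB (k n : ℕ) := FreeGroup (Option ((Fin (k + 1) × Bool × Fin 3) × Fin n))

/-- The inclusion of `F_n` as block `j`. -/
def blk {k n : ℕ} (j : Fin (k + 1) × Bool × Fin 3) : FreeGroup (Fin n) →* FB k n :=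
  FreeGroup.map (fun i => some (j, i))

/-- The letter `z`. -/
def zlet (k n : ℕ) : FB k n := of none

/-- `h` sends block `(m, b, r)` to block `(m, b, r + 1)`, and `z` to `z⁻¹`. -/
def IsRotation {k n : ℕ} (h : MulAut (FB k n)) : Prop :=
  (∀ m b r v, h (blk (m, b, r) v) = blk (m, b, r + 1) v) ∧ h (zlet k n) = (zlet k n)⁻¹

/-- `A` sends `v` in block `j` to `z τ(v) z⁻¹` with `τ(v)` in block `j'`. -/
def Moves {k n : ℕ} (A : MulAut (FB k n)) (τ : MulAut (FreeGroup (Fin n)))
    (j j' : Fin (k + 1) × Bool × Fin 3) : Prop :=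
  ∀ v, A (blk j v) = zlet k n * blk j' (τ v) * (zlet k n)⁻¹

/-- `A` sends `z` to `z⁻¹`, is the identity on block `(0, 0, 0)`, and moves the other blocks:
`(m, 1, 1)` and `(m + 1, 0, 0)` are exchanged (`m < k`), `(k, 1, 1)` goes to itself, `(m, 0, 1)` and
`(m, 1, 0)` are exchanged, and `(m, 0, 2)` goes to `(m, 1, 2)` with `σ_m` and back with `σ_m⁻¹`. -/
def IsLink {k n : ℕ} (σ : Fin (k + 1) → MulAut (FreeGroup (Fin n))) (A : MulAut (FB k n)) : Prop :=
  A (zlet k n) = (zlet k n)⁻¹ ∧ (∀ v, A (blk (0, false, 0) v) = blk (0, false, 0) v) ∧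
  (∀ m : Fin k, Moves A 1 (m.castSucc, true, 1) (m.succ, false, 0) ∧
    Moves A 1 (m.succ, false, 0) (m.castSucc, true, 1)) ∧
  Moves A 1 (Fin.last k, true, 1) (Fin.last k, true, 1) ∧
  ∀ m : Fin (k + 1), Moves A 1 (m, false, 1) (m, true, 0) ∧ Moves A 1 (m, true, 0) (m, false, 1) ∧
    Moves A (σ m) (m, false, 2) (m, true, 2) ∧ Moves A (σ m)⁻¹ (m, true, 2) (m, false, 2)

/-- The centralizer of the set `S` in the group `H` is finitely presented. -/
def CentFP {H : Type} [Group H] (S : Set H) : Prop :=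
  Group.IsFinitelyPresented (Subgroup.centralizer S)

/-- `h` sends every letter to a letter or to the inverse of a letter. -/
def IsSigned {N : ℕ} (h : MulAut (FreeGroup (Fin N))) : Prop :=
  ∀ i, ∃ j, h (of i) = of j ∨ h (of i) = (of j)⁻¹

/-- The centralizer of every pair `{h, A}` in `Aut(F_N)`, where `h⁶ = 1`, `A² = 1` and `h` permutes
the letters up to inverses, is finitely presented, for all `N`. -/
def AutPairs : Prop := ∀ (N : ℕ) (h A : MulAut (FreeGroup (Fin N))), IsSigned h → h ^ 6 = 1 →
  A ^ 2 = 1 → CentFP {h, A}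

/-- The centralizer of every pair in `Out(F_m)` is finitely presented, for all `m`. -/
def OutPairs : Prop := ∀ (m : ℕ) (φ ψ : Out (FreeGroup (Fin m))), CentFP {φ, ψ}

/-- The centralizer of every finite subset of `Aut(F_n)` is finitely presented, for all `n`;
this is the positive answer to question Q2. -/
def AutFinite : Prop := ∀ (n : ℕ) (S : Set (MulAut (FreeGroup (Fin n)))), S.Finite → CentFP S

/-- Transport to the standard letters. -/
theorem range_of_pairs (H : AutPairs) {n k : ℕ} (σ : Fin (k + 1) → MulAut (FreeGroup (Fin n))) :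
    CentFP (Set.range σ) := by
  let ε := Fintype.equivFin (Option ((Fin (k + 1) × Bool × Fin 3) × Fin n))
  let e := MulAut.congr (FreeGroup.freeGroupCongr ε)
  let D := Two2.chain3 σ
  have h1 : CentFP (e '' {Two2.hh D, Two2.aa D}) := by
    rw [Set.image_pair]
    apply H
    · intro a
      obtain ⟨l, rfl⟩ := ε.surjective a
      rcases l with _ | ⟨j, x⟩
      · refine ⟨ε none, Or.inr ?_⟩
        have h2 : Two2.hh D (of none) = (of none)⁻¹ := Two2.hh_zz D
        simp [e, h2]
      · refine ⟨ε (some (D.π j, x)), Or.inl ?_⟩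
        have h2 : Two2.hh D (of (some (j, x))) = of (some (D.π j, x)) := by
          have := Two2.hh_q D j (of x)
          rwa [Two2.q_of, Two2.q_of] at this
        simp [e, h2]
    · rw [← _root_.map_pow, Two2.hh6 D (Two2.chain3_pi σ), _root_.map_one]
    · rw [← _root_.map_pow, Two2.aa2 D (Two2.star_star k) (Two2.chain3_inv σ), _root_.map_one]
  have h2 := fp_centralizer_equiv e {Two2.hh D, Two2.aa D} h1
  exact fp_retract (Two2.inj3 D (Set.range σ) (Two2.chain3_s2 σ))
    (Two2.ret3 D (Two2.chain3_pi σ) (Set.range σ) (Two2.chain3_s1 σ))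
    (Two2.ret3_inj3 D _ _ _ _) h2

/-- Question Q2 for the pairs gives question Q2. -/
theorem finite_of_pairs (H : AutPairs) : AutFinite := by
  intro n S hS
  obtain ⟨k, σ, hσ⟩ := hS.fin_param
  obtain ⟨-, rfl⟩ := hσ
  rcases k with _ | k
  · have h := range_of_pairs H (fun _ : Fin (0 + 1) => (1 : MulAut (FreeGroup (Fin n))))
    have h1 : Subgroup.centralizer (Set.range σ) = Subgroup.centralizer
        (Set.range (fun _ : Fin (0 + 1) => (1 : MulAut (FreeGroup (Fin n))))) := by
      ext g
      simp [Subgroup.mem_centralizer_iff]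
    unfold CentFP at h ⊢
    rw [h1]
    exact h
  · exact range_of_pairs H σ

/-- The centralizer of `k + 1` automorphisms of `F_n` is a retract of the centralizer of two
automorphisms `h`, `A` of the free group of rank `6(k + 1)n + 1` with `h⁶ = 1` and `A² = 1`; hence
question Q2 is equivalent to the same question for such pairs, and it follows from the same question
for pairs in the groups `Out(F_m)`. -/
theorem result :
    (∀ (n k : ℕ) (σ : Fin (k + 1) → MulAut (FreeGroup (Fin n))),
      ∃ h A : MulAut (FB k n), IsRotation h ∧ h ^ 6 = 1 ∧ IsLink σ A ∧ A ^ 2 = 1 ∧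
        IsRetract (Subgroup.centralizer (Set.range σ))
          (Subgroup.centralizer ({h, A} : Set (MulAut (FB k n))))) ∧
    (AutPairs ↔ AutFinite) ∧ (OutPairs → AutFinite) := by
  refine ⟨fun n k σ => ⟨Two2.hh (Two2.chain3 σ), Two2.aa (Two2.chain3 σ),
    ⟨fun m b r v => Two2.hh_q (Two2.chain3 σ) (m, b, r) v, Two2.hh_zz _⟩,
    Two2.hh6 _ (Two2.chain3_pi σ), ?_, Two2.aa2 _ (Two2.star_star k) (Two2.chain3_inv σ),
    Two2.inj3 (Two2.chain3 σ) (Set.range σ) (Two2.chain3_s2 σ),
    Two2.ret3 (Two2.chain3 σ) (Two2.chain3_pi σ) (Set.range σ) (Two2.chain3_s1 σ),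
    Two2.ret3_inj3 _ _ _ _ _⟩, ⟨finite_of_pairs, ?_⟩, ?_⟩
  · have ne : ∀ (m : Fin (k + 1)) (b : Bool) (r : Fin 3), r ≠ 0 → (m, b, r) ≠ (Two2.chain3 σ).o :=
      fun m b r hr e => hr (congrArg (fun a : Fin (k + 1) × Bool × Fin 3 => a.2.2) e)
    have neb : ∀ (m : Fin (k + 1)) (r : Fin 3), (m, true, r) ≠ (Two2.chain3 σ).o :=
      fun m r e => Bool.false_ne_true
        (congrArg (fun a : Fin (k + 1) × Bool × Fin 3 => a.2.1) e).symm
    have mv : ∀ {j j' : Fin (k + 1) × Bool × Fin 3} {τ : MulAut (FreeGroup (Fin n))},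
        j ≠ (Two2.chain3 σ).o → Two2.star k j = j' → Two2.s3 σ j = τ →
        Moves (Two2.aa (Two2.chain3 σ)) τ j j' := by
      rintro j _ _ hj rfl rfl v
      exact Two2.aa_q (Two2.chain3 σ) hj v
    refine ⟨Two2.aa_zz _, fun v => Two2.aa_o (Two2.chain3 σ) v, fun m => ⟨?_, ?_⟩, ?_,
      fun m => ⟨?_, ?_, ?_, ?_⟩⟩
    · exact mv (neb _ _) (Two2.star_c k m) rfl
    · exact mv (fun e => Fin.succ_ne_zero m
        (congrArg (fun a : Fin (k + 1) × Bool × Fin 3 => a.1) e)) (Two2.star_s k m) rfl
    · exact mv (neb _ _) (Two2.star_l k) rfl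
    · exact mv (ne _ _ _ (by decide)) (Two2.star_f1 k m) rfl
    · exact mv (neb _ _) (Two2.star_t0 k m) rfl
    · exact mv (ne _ _ _ (by decide)) (Two2.star_f2 k m) rfl
    · exact mv (neb _ _) (Two2.star_t2 k m) rfl
  · intro H N h A _ _ _
    exact H N _ (Set.toFinite _)
  · intro H
    refine finite_of_pairs (fun N h A _ _ _ => ?_)
    have hcard : Fintype.card (Fin N) + 2 < Fintype.card (Fin (N + 3)) := by simp
    obtain ⟨i, r, hr⟩ := retract hcard (0 : Fin (N + 3)) {h, A} ⟨h, by simp⟩
    refine fp_retract i r hr ?_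
    let E : Out (FreeGroup (Fin N ⊕ Fin (N + 3))) ≃* Out (FreeGroup (Fin (N + (N + 3)))) :=
      outCongr (FreeGroup.freeGroupCongr finSumFinEquiv)
    apply fp_centralizer_equiv E
    have : SO (0 : Fin (N + 3)) {h, A} = {(QuotientGroup.mk (mark 0 h) : Out _),
        (QuotientGroup.mk (mark 0 A) : Out _)} := by
      rw [SO, Set.image_pair]
    rw [this, Set.image_pair]
    exact H _ _ _

end Pool.Agent.Results.MP_8e8e02_al.TorsionPairs
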